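import Pool.Agent.H27.L1.H16.GA.ZLC1
import Pool.Agent.H27.L1.H16.GA.ZLC2

/-!
Row ZLC of the board ga: lower bound of the zeta integral on a circle, without a condition at
infinity.
-/

set_option autoImplicit false

namespace Pool.Agent.H27.L1.H16.GA

open MeasureTheory Pool.Agent.H27.L1.H34.GM Pool.Agent.H27.L1.H34.GZ Pool.Agent.H27.L1.H34.GU Pool.Agent.H27.L1.H34.GA

lemma trL_bd {m : ℕ} (x : V m) (hx : ‖x‖ ≤ 1) : |trL m x| ≤ m := by
  rw [trL_apply]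
  unfold Matrix.trace
  refine (Finset.abs_sum_le_sum_abs _ _).trans ?_
  have h1 : ∀ i ∈ (Finset.univ : Finset (Fin m)), |(mt x).diag i| ≤ 1 := by
    intro i _
    have h2 : ‖x i i‖ ≤ ‖x‖ := (norm_le_pi_norm (x i) i).trans (norm_le_pi_norm x i)
    exact (h2.trans hx)
  refine (Finset.sum_le_sum h1).trans ?_
  simp

lemma ZA_eq {m : ℕ} (hm1 : 1 ≤ m) {χ : ℝ → ℝ} (hχ : Prof χ) (f : Mat m → ℂ) (s0 w : ℂ) (δ : ℝ)
    (hδ : 0 < δ) (hdet : ∀ x : V m, ‖x‖ ≤ 1 → 0 < (mt (e1 m + δ • x)).det) :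
    ZA (dD^[m] (bi m χ δ)) f (s0 + w) = ∫ x : V m, (dD^[m] (ph χ)) (mt x) *
      (Complex.exp ((s0 - ((m : ℂ) + 1) / 2) *
        ((Real.log ((mt (e1 m + δ • x)).det) : ℝ) : ℂ)) * f (mt (e1 m + δ • x))) *
      Complex.exp (w * ((Real.log ((mt (e1 m + δ • x)).det) : ℝ) : ℂ)) := by
  have hδC : (δ : ℂ) ≠ 0 := by exact_mod_cast hδ.ne'
  unfold ZA
  rw [hm_int, cov δ hδ, ← integral_const_mul]
  refine integral_congr_ae (Filter.Eventually.of_forall fun x => ?_)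
  have h1 : (dD^[m] (bi m χ δ)) (mt (e1 m + δ • x)) =
      ((δ⁻¹ : ℝ) : ℂ) ^ (m * m) * (dD^[m] (ph χ)) (mt x) := by
    rw [bi_eq, dD_aff_iter (ph_SC hχ) δ⁻¹ m]
    have h2 : δ⁻¹ • (mt (e1 m + δ • x) - 1) = mt x := by
      ext i j
      show δ⁻¹ * (e1 m i j + δ * x i j - (1 : Mat m) i j) = x i j
      unfold e1
      field_simp
      ring
    show ((δ⁻¹ : ℝ) : ℂ) ^ (m * m) * (dD^[m] (ph χ)) (δ⁻¹ • (mt (e1 m + δ • x) - 1)) = _
    rw [h2]
  show (δ : ℂ) ^ (m * m) * ((((|(mt (e1 m + δ • x)).det| ^ m)⁻¹ : ℝ) : ℂ) *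
    ((dD^[m] (bi m χ δ)) (mt (e1 m + δ • x)) * ((|(mt (e1 m + δ • x)).det| : ℝ) : ℂ) ^
      (s0 + w + ((m : ℂ) - 1) / 2) * f (mt (e1 m + δ • x)))) = _
  rw [h1]
  beta_reduce
  by_cases hx : (dD^[m] (ph χ)) (mt x) = 0
  · rw [hx]
    simp only [mul_zero, zero_mul]
  · have hx1 : ‖x‖ ≤ 1 := by
      by_contra hcon
      push Not at hcon
      exact hx (dD_iter_supp (ph_supp hχ) m x hcon)
    have hd := hdet x hx1
    obtain ⟨d, hdd⟩ : ∃ d : ℝ, d = (mt (e1 m + δ • x)).det := ⟨_, rfl⟩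
    rw [← hdd] at hd ⊢
    have hdC : (d : ℂ) ≠ 0 := by exact_mod_cast hd.ne'
    have h3 : (((|d| ^ m)⁻¹ : ℝ) : ℂ) * ((|d| : ℝ) : ℂ) ^ (s0 + w + ((m : ℂ) - 1) / 2) =
        Complex.exp ((s0 - ((m : ℂ) + 1) / 2) * ((Real.log d : ℝ) : ℂ)) *
          Complex.exp (w * ((Real.log d : ℝ) : ℂ)) := by
      rw [abs_of_pos hd, Complex.cpow_def_of_ne_zero hdC, ← Complex.exp_add]
      have h4 : (((d ^ m)⁻¹ : ℝ) : ℂ) = Complex.exp (-((m : ℂ) * ((Real.log d : ℝ) : ℂ))) := by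
        have h5 : (d ^ m)⁻¹ = Real.exp (-((m : ℝ) * Real.log d)) := by
          rw [Real.exp_neg, Real.exp_nat_mul, Real.exp_log hd]
        rw [h5]
        push_cast
        rfl
      rw [h4, ← Complex.exp_add, Complex.ofReal_log hd.le]
      congr 1
      ring
    have h6 : (δ : ℂ) ^ (m * m) * ((δ⁻¹ : ℝ) : ℂ) ^ (m * m) = 1 := by
      rw [← mul_pow]
      push_cast
      rw [mul_inv_cancel₀ hδC, one_pow]
    have key : ∀ p g : ℂ, (δ : ℂ) ^ (m * m) * ((((|d| ^ m)⁻¹ : ℝ) : ℂ) *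
        (((δ⁻¹ : ℝ) : ℂ) ^ (m * m) * p * ((|d| : ℝ) : ℂ) ^ (s0 + w + ((m : ℂ) - 1) / 2) * g)) =
        p * (Complex.exp ((s0 - ((m : ℂ) + 1) / 2) * ((Real.log d : ℝ) : ℂ)) * g) *
          Complex.exp (w * ((Real.log d : ℝ) : ℂ)) := by
      intro p g
      calc (δ : ℂ) ^ (m * m) * ((((|d| ^ m)⁻¹ : ℝ) : ℂ) * (((δ⁻¹ : ℝ) : ℂ) ^ (m * m) *
            p * ((|d| : ℝ) : ℂ) ^ (s0 + w + ((m : ℂ) - 1) / 2) * g)) =
            ((δ : ℂ) ^ (m * m) * ((δ⁻¹ : ℝ) : ℂ) ^ (m * m)) *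
            (p * ((((|d| ^ m)⁻¹ : ℝ) : ℂ) *
              ((|d| : ℝ) : ℂ) ^ (s0 + w + ((m : ℂ) - 1) / 2)) * g) := by ring
        _ = _ := by
          rw [h6, h3]
          ring
    exact key _ _

theorem pf_ZLC : T_ZLC := by
  intro m χ hm1 hχ ε C0 hε hε1 hC0
  have hmR : (1 : ℝ) ≤ m := by exact_mod_cast hm1
  have hSC := dD_iter_SC (ph_SC (m := m) hχ) m
  have hn1 : 1 ≤ m ^ 2 := Nat.one_le_pow _ _ hm1
  have hκ0 : (-1 : ℂ) ^ (m ^ 2) * ((m ^ 2).factorial : ℂ) * ∫ x : V m, ph χ (mt x) ≠ 0 := by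
    refine mul_ne_zero (mul_ne_zero (pow_ne_zero _ (by norm_num)) ?_) (ph_pos hχ)
    exact_mod_cast (m ^ 2).factorial_ne_zero
  have hκi : ∫ x : V m, (dD^[m] (ph χ)) (mt x) * ((trL m x : ℝ) : ℂ) ^ (m ^ 2) =
      (-1 : ℂ) ^ (m ^ 2) * ((m ^ 2).factorial : ℂ) * ∫ x : V m, ph χ (mt x) := by
    have h1 := pf_DTR m (ph χ) (ph_SC hχ).smooth (ph_SC hχ).comp
    rw [← h1]
    refine integral_congr_ae (Filter.Eventually.of_forall fun x => ?_)
    simp only [trL_apply]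
  have hsupp : ∀ x : V m, (dD^[m] (ph χ)) (mt x) ≠ 0 → ‖x‖ ≤ 1 := by
    intro x hx
    by_contra hcon
    push Not at hcon
    exact hx (dD_iter_supp (ph_supp hχ) m x hcon)
  obtain ⟨η, hη0, hη1, hcore⟩ := core (X := V m) volume (fun x : V m => (dD^[m] (ph χ)) (mt x))
    (fun x => trL m x) m (m ^ 2) ε _ (hSC.cont.integrable_of_hasCompactSupport hSC.comp)
    (trL m).continuous.aestronglyMeasurable hmR (fun x hx => trL_bd x (hsupp x hx)) hn1 hε hε1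
    hκ0 hκi
  obtain ⟨r, hr0, hr⟩ := log_det_bd m η hη0
  obtain ⟨B, hB⟩ : ∃ B : ℝ, B = 2 * ((m : ℝ) + 1) ^ 2 + C0 := ⟨_, rfl⟩
  have hB0 : 0 < B := by rw [hB]; positivity
  obtain ⟨c, hc⟩ : ∃ c : ℝ, c = min η (min r (η / B)) := ⟨_, rfl⟩
  have hc0 : 0 < c := by
    rw [hc]
    exact lt_min hη0 (lt_min hr0 (div_pos hη0 hB0))
  have hcη : c ≤ η := by rw [hc]; exact min_le_left _ _
  have hcr : c ≤ r := by rw [hc]; exact (min_le_right _ _).trans (min_le_left _ _)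
  have hcB : B * c ≤ η := by
    have h1 : c ≤ η / B := by rw [hc]; exact (min_le_right _ _).trans (min_le_right _ _)
    rw [le_div_iff₀ hB0] at h1
    linarith
  refine ⟨c, m ^ 2, hc0, ?_⟩
  intro f P s0 δ hfm hfb hP hfP hδ hδc
  have hs0 : 0 ≤ ‖s0‖ := norm_nonneg _
  have hδP : 0 ≤ δ * P := mul_nonneg hδ.le hP
  have hδs : 0 ≤ δ * ‖s0‖ := mul_nonneg hδ.le hs0
  have hδ1 : δ ≤ c := by nlinarith
  have hδP1 : δ * P ≤ c := by nlinarith
  have hδs1 : δ * (1 + ‖s0‖) ≤ c := by nlinarith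
  have hc1 : c ≤ 1 := hcη.trans hη1
  obtain ⟨h, hh⟩ : ∃ h : V m → ℝ, h = fun x => Real.log ((mt (e1 m + δ • x)).det) := ⟨_, rfl⟩
  obtain ⟨E, hE⟩ : ∃ E : V m → ℂ, E = fun x => Complex.exp ((s0 - ((m : ℂ) + 1) / 2) *
    ((h x : ℝ) : ℂ)) * f (mt (e1 m + δ • x)) := ⟨_, rfl⟩
  have hdet : ∀ x : V m, ‖x‖ ≤ 1 → 0 < (mt (e1 m + δ • x)).det := fun x hx =>
    (hr x δ hx hδ (hδ1.trans hcr)).1
  have hlog : ∀ x : V m, ‖x‖ ≤ 1 → |h x - δ * trL m x| ≤ η * δ := by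
    intro x hx
    rw [hh]
    exact (hr x δ hx hδ (hδ1.trans hcr)).2
  have hhm : Measurable h := by
    rw [hh]
    have h1 : Continuous (fun x : V m => (mt (e1 m + δ • x)).det) :=
      (Continuous.matrix_det (continuous_id : Continuous (fun z : V m => (mt z : Mat m)))).comp
        (continuous_const.add (continuous_const_smul δ))
    exact Real.measurable_log.comp h1.measurable
  have hEm : AEStronglyMeasurable E volume := by
    rw [hE]
    refine AEStronglyMeasurable.mul ?_ (f_meas hfm δ hδ)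
    have h1 : Measurable (fun x => Complex.exp ((s0 - ((m : ℂ) + 1) / 2) * ((h x : ℝ) : ℂ))) :=
      Complex.measurable_exp.comp ((Complex.measurable_ofReal.comp hhm).const_mul _)
    exact h1.aestronglyMeasurable
  have hE1 : ∀ x : V m, ‖x‖ ≤ 1 → ‖E x - 1‖ ≤ η := by
    intro x hx
    have h1 : |h x| ≤ δ * (m + 1) := by
      have h2 := hlog x hx
      have h3 := trL_bd x hx
      have h4 : h x = (h x - δ * trL m x) + δ * trL m x := by ring
      rw [h4]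
      refine (abs_add_le _ _).trans ?_
      rw [abs_mul, abs_of_pos hδ]
      have h5 : η * δ ≤ δ := by nlinarith
      have h6 : δ * |trL m x| ≤ δ * m := mul_le_mul_of_nonneg_left h3 hδ.le
      linarith
    obtain ⟨a, ha⟩ : ∃ a : ℂ, a = (s0 - ((m : ℂ) + 1) / 2) * ((h x : ℝ) : ℂ) := ⟨_, rfl⟩
    have h7 : ‖a‖ ≤ (m + 1) ^ 2 * (δ * (1 + ‖s0‖)) := by
      rw [ha, norm_mul, Complex.norm_real, Real.norm_eq_abs]
      have h8 : ‖s0 - ((m : ℂ) + 1) / 2‖ ≤ ‖s0‖ + ((m : ℝ) + 1) := by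
        refine (norm_sub_le _ _).trans ?_
        have h9 : ‖((m : ℂ) + 1) / 2‖ = ((m : ℝ) + 1) / 2 := by
          have : ((m : ℂ) + 1) / 2 = ((((m : ℝ) + 1) / 2 : ℝ) : ℂ) := by push_cast; ring
          rw [this, Complex.norm_real, Real.norm_eq_abs, abs_of_pos (by positivity)]
        rw [h9]
        linarith
      have h10 : ‖s0‖ + ((m : ℝ) + 1) ≤ (m + 1) * (1 + ‖s0‖) := by nlinarith
      calc ‖s0 - ((m : ℂ) + 1) / 2‖ * |h x| ≤ ((m + 1) * (1 + ‖s0‖)) * (δ * (m + 1)) :=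
            mul_le_mul (h8.trans h10) h1 (abs_nonneg _) (by positivity)
        _ = _ := by ring
    have h11 : ‖a‖ ≤ (m + 1) ^ 2 * c := h7.trans (mul_le_mul_of_nonneg_left hδs1 (by positivity))
    have h12 : ‖a‖ ≤ 1 := by
      have : ((m : ℝ) + 1) ^ 2 * c ≤ B * c := by
        refine mul_le_mul_of_nonneg_right ?_ hc0.le
        rw [hB]
        nlinarith [sq_nonneg ((m : ℝ) + 1)]
      linarith
    have h13 : ‖Complex.exp a - 1‖ ≤ 2 * ‖a‖ := Complex.norm_exp_sub_one_le h12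
    have hfx : ‖f (mt (e1 m + δ • x))‖ ≤ 1 := hfb _ (hdet x hx).ne'
    have hsz : sz (mt (e1 m + δ • x) - 1) ≤ δ := by
      have h14 : sz (mt (e1 m + δ • x) - 1) = ‖δ • x‖ := by
        unfold sz
        congr 1
        funext i j
        show e1 m i j + δ * x i j - (1 : Mat m) i j = δ * x i j
        unfold e1
        ring
      rw [h14, norm_smul, Real.norm_eq_abs, abs_of_pos hδ]
      exact mul_le_of_le_one_right hδ.le hx
    have hf1 : ‖f (mt (e1 m + δ • x)) - 1‖ ≤ C0 * c := by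
      have h15 : C0 * sz (mt (e1 m + δ • x) - 1) ≤ 1 := by
        have h16 : C0 * sz (mt (e1 m + δ • x) - 1) ≤ C0 * c :=
          mul_le_mul_of_nonneg_left (hsz.trans hδ1) (by linarith)
        have h17 : C0 * c ≤ B * c := by
          refine mul_le_mul_of_nonneg_right ?_ hc0.le
          rw [hB]
          nlinarith [sq_nonneg ((m : ℝ) + 1)]
        linarith
      refine (hfP _ h15).trans ?_
      have h18 : C0 * P * sz (mt (e1 m + δ • x) - 1) ≤ C0 * P * δ :=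
        mul_le_mul_of_nonneg_left hsz (by positivity)
      have h19 : C0 * P * δ = C0 * (δ * P) := by ring
      rw [h19] at h18
      exact h18.trans (mul_le_mul_of_nonneg_left hδP1 (by linarith))
    have h20 : E x - 1 = (Complex.exp a - 1) * f (mt (e1 m + δ • x)) +
        (f (mt (e1 m + δ • x)) - 1) := by
      rw [hE, ha]
      ring
    rw [h20]
    refine (norm_add_le _ _).trans ?_
    rw [norm_mul]
    have h21 : ‖Complex.exp a - 1‖ * ‖f (mt (e1 m + δ • x))‖ ≤ 2 * ((m + 1) ^ 2 * c) := by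
      refine (mul_le_mul_of_nonneg_left hfx (norm_nonneg _)).trans ?_
      rw [mul_one]
      linarith
    have h22 : 2 * (((m : ℝ) + 1) ^ 2 * c) + C0 * c = B * c := by
      rw [hB]
      ring
    linarith
  obtain ⟨R, hR1, hR2, hR3⟩ := hcore E h δ hEm hhm.aestronglyMeasurable hδ (hδ1.trans hcη)
    (fun x hx => hE1 x (hsupp x hx)) (fun x hx => hlog x (hsupp x hx))
  refine ⟨R, hR1, hR2, fun s hs => ?_⟩
  have h1 := hR3 (s - s0) hs
  have h2 : s = s0 + (s - s0) := by ring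
  have h3 := ZA_eq hm1 hχ f s0 (s - s0) δ hδ hdet
  rw [← h2] at h3
  rw [h3]
  refine (mul_le_mul_of_nonneg_right hcη (by positivity)).trans ?_
  rw [hE, hh] at h1
  exact h1

end Pool.Agent.H27.L1.H16.GA
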