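import Pool.Agent.H27.L1.H16.GA.TargetsC

/-!
Row DTR of the board ga: Cayley's operator against the powers of the trace.
-/

set_option autoImplicit false

namespace Pool.Agent.H27.L1.H16.GA

open MeasureTheory Pool.Agent.H27.L1.H34.GM Pool.Agent.H27.L1.H34.GZ Pool.Agent.H27.L1.H34.GU Pool.Agent.H27.L1.H34.GA

/-- smooth with compact support -/
structure SC {m : ℕ} (ψ : V m → ℂ) : Prop where
  smooth : ContDiff ℝ ((⊤ : ℕ∞) : WithTop ℕ∞) ψ
  comp : HasCompactSupport ψ

lemma SC.cont {m : ℕ} {ψ : V m → ℂ} (h : SC ψ) : Continuous ψ := h.smooth.continuous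

lemma SC.iter {m : ℕ} {ψ : V m → ℂ} (h : SC ψ) (j : ℕ) (v : Fin j → V m) :
    SC (fun x => iteratedFDeriv ℝ j ψ x v) := by
  refine ⟨?_, ?_⟩
  · have h1 : ContDiff ℝ ((⊤ : ℕ∞) : WithTop ℕ∞) (fun x => iteratedFDeriv ℝ j ψ x) :=
      h.smooth.iteratedFDeriv_right (m := ((⊤ : ℕ∞) : WithTop ℕ∞)) (i := j) (by
        exact_mod_cast le_top)
    exact (ContinuousMultilinearMap.apply ℝ (fun _ : Fin j => V m) ℂ v).contDiff.comp h1
  · have h1 := h.comp.iteratedFDeriv (𝕜 := ℝ) j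
    exact h1.comp_left (g := fun T : V m [×j]→L[ℝ] ℂ => T v) rfl

lemma SC.fd {m : ℕ} {ψ : V m → ℂ} (h : SC ψ) (v : V m) : SC (fun x => fderiv ℝ ψ x v) := by
  refine ⟨?_, ?_⟩
  · have h1 : ContDiff ℝ ((⊤ : ℕ∞) : WithTop ℕ∞) (fun x => fderiv ℝ ψ x) :=
      h.smooth.fderiv_right (m := ((⊤ : ℕ∞) : WithTop ℕ∞)) (by exact_mod_cast le_top)
    exact (ContinuousLinearMap.apply ℝ ℂ v).contDiff.comp h1
  · have h1 := h.comp.fderiv (𝕜 := ℝ)
    exact h1.comp_left (g := fun T : V m →L[ℝ] ℂ => T v) rfl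

lemma pow_diff {m : ℕ} (L : V m →L[ℝ] ℝ) (k : ℕ) (x : V m) :
    HasFDerivAt (fun x : V m => ((L x : ℝ) : ℂ) ^ (k + 1))
      ((((k + 1 : ℕ) : ℂ) * ((L x : ℝ) : ℂ) ^ k) • (Complex.ofRealCLM.comp L)) x := by
  have h1 : HasFDerivAt (fun x : V m => ((L x : ℝ) : ℂ)) (Complex.ofRealCLM.comp L) x :=
    (Complex.ofRealCLM.hasFDerivAt (x := L x)).comp x L.hasFDerivAt
  have h2 := h1.pow (k + 1)
  simpa using h2

lemma ibp {m : ℕ} {ψ : V m → ℂ} (h : SC ψ) (L : V m →L[ℝ] ℝ) (v : V m) (k : ℕ) :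
    ∫ x : V m, fderiv ℝ ψ x v * ((L x : ℝ) : ℂ) ^ (k + 1) =
      -(((k + 1 : ℕ) : ℂ) * ((L v : ℝ) : ℂ)) * ∫ x : V m, ψ x * ((L x : ℝ) : ℂ) ^ k := by
  have hL : ∀ k : ℕ, Continuous (fun x : V m => ((L x : ℝ) : ℂ) ^ k) := fun k =>
    (Complex.continuous_ofReal.comp L.continuous).pow k
  have hg : ∀ x : V m, fderiv ℝ (fun x : V m => ((L x : ℝ) : ℂ) ^ (k + 1)) x v =
      ((k + 1 : ℕ) : ℂ) * ((L v : ℝ) : ℂ) * ((L x : ℝ) : ℂ) ^ k := by
    intro x
    rw [(pow_diff L k x).fderiv]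
    simp only [ContinuousLinearMap.smul_apply, ContinuousLinearMap.comp_apply,
      Complex.ofRealCLM_apply, smul_eq_mul]
    ring
  have h1 := integral_mul_fderiv_eq_neg_fderiv_mul_of_integrable (μ := (volume : Measure (V m)))
    (f := ψ) (g := fun x : V m => ((L x : ℝ) : ℂ) ^ (k + 1)) (v := v) ?_ ?_ ?_ ?_ ?_
  · have h2 : ∫ x : V m, ψ x * fderiv ℝ (fun x : V m => ((L x : ℝ) : ℂ) ^ (k + 1)) x v =
        ((k + 1 : ℕ) : ℂ) * ((L v : ℝ) : ℂ) * ∫ x : V m, ψ x * ((L x : ℝ) : ℂ) ^ k := by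
      rw [← integral_const_mul]
      refine integral_congr_ae (Filter.Eventually.of_forall fun x => ?_)
      simp only [hg]
      ring
    rw [h2] at h1
    rw [neg_mul, h1, neg_neg]
  · exact ((h.fd v).cont.mul (hL (k + 1))).integrable_of_hasCompactSupport
      ((h.fd v).comp.mul_right)
  · simp only [hg]
    have h3 : Continuous (fun x : V m => ψ x * (((k + 1 : ℕ) : ℂ) * ((L v : ℝ) : ℂ) *
        ((L x : ℝ) : ℂ) ^ k)) := h.cont.mul (continuous_const.mul (hL k))
    exact h3.integrable_of_hasCompactSupport h.comp.mul_right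
  · exact (h.cont.mul (hL (k + 1))).integrable_of_hasCompactSupport h.comp.mul_right
  · intro x _
    exact (h.smooth.differentiable (by simp)).differentiableAt
  · intro x _
    exact (pow_diff L k x).differentiableAt

lemma ibpj {m : ℕ} {ψ : V m → ℂ} (h : SC ψ) (L : V m →L[ℝ] ℝ) (k : ℕ) :
    ∀ (j : ℕ) (v : Fin j → V m),
    ∫ x : V m, iteratedFDeriv ℝ j ψ x v * ((L x : ℝ) : ℂ) ^ (k + j) =
      (-1) ^ j * (∏ i, ((L (v i) : ℝ) : ℂ)) * (((k + j).descFactorial j : ℕ) : ℂ) *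
        ∫ x : V m, ψ x * ((L x : ℝ) : ℂ) ^ k := by
  intro j
  induction j with
  | zero =>
    intro v
    simp
  | succ j ih =>
    intro v
    have h1 : ∀ x, iteratedFDeriv ℝ (j + 1) ψ x v =
        fderiv ℝ (fun y => iteratedFDeriv ℝ j ψ y (Fin.tail v)) x (v 0) := by
      intro x
      rw [iteratedFDeriv_succ_apply_left]
      have hd : DifferentiableAt ℝ (iteratedFDeriv ℝ j ψ) x :=
        (h.smooth.differentiable_iteratedFDeriv (m := j) (by
          exact_mod_cast WithTop.coe_lt_top (j : ℕ))).differentiableAt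
      have h2 : HasFDerivAt (fun y => iteratedFDeriv ℝ j ψ y (Fin.tail v))
          ((ContinuousMultilinearMap.apply ℝ (fun _ : Fin j => V m) ℂ (Fin.tail v)).comp
            (fderiv ℝ (iteratedFDeriv ℝ j ψ) x)) x :=
        (ContinuousMultilinearMap.apply ℝ (fun _ : Fin j => V m) ℂ
          (Fin.tail v)).hasFDerivAt.comp x hd.hasFDerivAt
      rw [h2.fderiv]
      rfl
    simp only [h1]
    have h3 := ibp (h.iter j (Fin.tail v)) L (v 0) (k + j)
    have h4 : k + (j + 1) = k + j + 1 := by omega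
    rw [h4, h3, ih (Fin.tail v), Fin.prod_univ_succ, Nat.succ_descFactorial_succ]
    have h5 : ∏ i : Fin j, ((L (Fin.tail v i) : ℝ) : ℂ) = ∏ i : Fin j, ((L (v i.succ) : ℝ) : ℂ) :=
      rfl
    rw [h5]
    push_cast
    ring

/-- the trace as a continuous linear form -/
noncomputable def trL (m : ℕ) : V m →L[ℝ] ℝ :=
  ∑ i : Fin m, (ContinuousLinearMap.proj (R := ℝ) (φ := fun _ : Fin m => ℝ) i).comp
    (ContinuousLinearMap.proj (R := ℝ) (φ := fun _ : Fin m => Fin m → ℝ) i)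

lemma trL_apply {m : ℕ} (x : V m) : trL m x = (mt x).trace := by
  unfold trL
  rw [ContinuousLinearMap.sum_apply]
  rfl

lemma trL_ev {m : ℕ} (σ : Equiv.Perm (Fin m)) (i : Fin m) :
    trL m (ev i (σ i)) = if σ i = i then 1 else 0 := by
  rw [trL_apply]
  unfold Matrix.trace
  have h1 : ∀ a : Fin m, (mt (ev i (σ i))).diag a = if a = i then (if σ i = i then 1 else 0)
      else 0 := by
    intro a
    show ev i (σ i) a a = _
    unfold ev
    by_cases ha : a = i
    · subst ha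
      by_cases h2 : σ a = a
      · simp [h2]
      · have h3 : ¬ (a = σ a) := fun h => h2 h.symm
        simp [h2, h3]
    · simp [ha]
  simp only [h1, Finset.sum_ite_eq', Finset.mem_univ, if_true]

lemma dD_SC {m : ℕ} {φ : Mat m → ℂ} (h : SC (fun z : V m => φ (mt z))) :
    SC (fun z : V m => dD φ (mt z)) := by
  have h1 : ∀ σ : Equiv.Perm (Fin m), SC (fun z : V m => ((Equiv.Perm.sign σ : ℤ) : ℂ) *
      iteratedFDeriv ℝ m (fun w : V m => φ (mt w)) z (fun i => ev i (σ i))) := by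
    intro σ
    have h2 := h.iter m (fun i => ev i (σ i))
    exact ⟨contDiff_const.mul h2.smooth, h2.comp.mul_left⟩
  refine ⟨?_, ?_⟩
  · show ContDiff ℝ ((⊤ : ℕ∞) : WithTop ℕ∞) (fun z : V m => ∑ σ : Equiv.Perm (Fin m),
      ((Equiv.Perm.sign σ : ℤ) : ℂ) * iteratedFDeriv ℝ m (fun w : V m => φ (mt w)) z
        (fun i => ev i (σ i)))
    exact ContDiff.sum fun σ _ => (h1 σ).smooth
  · have h2 : (fun z : V m => dD φ (mt z)) = fun z : V m => ∑ σ : Equiv.Perm (Fin m),
        ((Equiv.Perm.sign σ : ℤ) : ℂ) * iteratedFDeriv ℝ m (fun w : V m => φ (mt w)) z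
          (fun i => ev i (σ i)) := rfl
    rw [h2]
    have h3 : ∀ s : Finset (Equiv.Perm (Fin m)), HasCompactSupport (fun z : V m => ∑ σ ∈ s,
        ((Equiv.Perm.sign σ : ℤ) : ℂ) * iteratedFDeriv ℝ m (fun w : V m => φ (mt w)) z
          (fun i => ev i (σ i))) := by
      classical
      intro s
      induction s using Finset.induction_on with
      | empty =>
        simp only [Finset.sum_empty]
        exact HasCompactSupport.zero
      | insert a s ha ih =>
        simp only [Finset.sum_insert ha]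
        exact (h1 a).comp.add ih
    exact h3 Finset.univ

lemma dD_pow {m : ℕ} {φ : Mat m → ℂ} (h : SC (fun z : V m => φ (mt z))) (k : ℕ) :
    ∫ x : V m, dD φ (mt x) * ((trL m x : ℝ) : ℂ) ^ (k + m) =
      (-1) ^ m * (((k + m).descFactorial m : ℕ) : ℂ) *
        ∫ x : V m, φ (mt x) * ((trL m x : ℝ) : ℂ) ^ k := by
  have h0 : ∀ x : V m, dD φ (mt x) * ((trL m x : ℝ) : ℂ) ^ (k + m) =
      ∑ σ : Equiv.Perm (Fin m), ((Equiv.Perm.sign σ : ℤ) : ℂ) *
        (iteratedFDeriv ℝ m (fun w : V m => φ (mt w)) x (fun i => ev i (σ i)) *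
          ((trL m x : ℝ) : ℂ) ^ (k + m)) := by
    intro x
    have h1 : dD φ (mt x) = ∑ σ : Equiv.Perm (Fin m), ((Equiv.Perm.sign σ : ℤ) : ℂ) *
        iteratedFDeriv ℝ m (fun w : V m => φ (mt w)) x (fun i => ev i (σ i)) := rfl
    rw [h1, Finset.sum_mul]
    refine Finset.sum_congr rfl fun σ _ => ?_
    ring
  simp only [h0]
  rw [integral_finset_sum]
  · have h2 : ∀ σ : Equiv.Perm (Fin m), ∫ x : V m, ((Equiv.Perm.sign σ : ℤ) : ℂ) *
        (iteratedFDeriv ℝ m (fun w : V m => φ (mt w)) x (fun i => ev i (σ i)) *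
          ((trL m x : ℝ) : ℂ) ^ (k + m)) = if σ = 1 then (-1) ^ m *
            (((k + m).descFactorial m : ℕ) : ℂ) *
              ∫ x : V m, φ (mt x) * ((trL m x : ℝ) : ℂ) ^ k else 0 := by
      intro σ
      rw [integral_const_mul, ibpj h (trL m) k m (fun i => ev i (σ i))]
      by_cases hσ : σ = 1
      · subst hσ
        have h3 : ∏ i : Fin m, ((trL m (ev i ((1 : Equiv.Perm (Fin m)) i)) : ℝ) : ℂ) = 1 := by
          refine Finset.prod_eq_one fun i _ => ?_
          rw [trL_ev]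
          simp
        rw [if_pos rfl, h3]
        simp
      · rw [if_neg hσ]
        have h3 : ∃ i, σ i ≠ i := by
          by_contra hcon
          push Not at hcon
          exact hσ (Equiv.ext hcon)
        obtain ⟨i, hi⟩ := h3
        have h4 : ∏ i : Fin m, ((trL m (ev i (σ i)) : ℝ) : ℂ) = 0 := by
          refine Finset.prod_eq_zero (Finset.mem_univ i) ?_
          rw [trL_ev, if_neg hi]
          simp
        rw [h4]
        simp
    simp only [h2]
    rw [Finset.sum_ite_eq' Finset.univ (1 : Equiv.Perm (Fin m))]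
    simp
  · intro σ _
    have h3 := h.iter m (fun i => ev i (σ i))
    have h4 : Continuous (fun x : V m => ((trL m x : ℝ) : ℂ) ^ (k + m)) :=
      (Complex.continuous_ofReal.comp (trL m).continuous).pow _
    exact ((h3.cont.mul h4).integrable_of_hasCompactSupport h3.comp.mul_right).const_mul _

lemma dD_iter_SC {m : ℕ} {φ : Mat m → ℂ} (h : SC (fun z : V m => φ (mt z))) (l : ℕ) :
    SC (fun z : V m => (dD^[l] φ) (mt z)) := by
  induction l with
  | zero => exact h
  | succ l ih =>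
    rw [Function.iterate_succ_apply']
    exact dD_SC ih

theorem pf_DTR : T_DTR := by
  intro m φ h1 h2
  have h : SC (fun z : V m => φ (mt z)) := ⟨h1, h2⟩
  have h3 : ∀ l : ℕ, ∫ x : V m, (dD^[l] φ) (mt x) * ((trL m x : ℝ) : ℂ) ^ (m * l) =
      (-1) ^ (m * l) * ((m * l).factorial : ℂ) * ∫ x : V m, φ (mt x) := by
    intro l
    induction l with
    | zero => simp
    | succ l ih =>
      rw [Function.iterate_succ_apply', Nat.mul_succ, dD_pow (dD_iter_SC h l) (m * l), ih]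
      have h4 := Nat.factorial_mul_descFactorial (n := m * l + m) (k := m) (by omega)
      rw [Nat.add_sub_cancel] at h4
      rw [← h4, pow_add]
      push_cast
      ring
  have h5 := h3 m
  rw [← pow_two] at h5
  rw [← h5]
  refine integral_congr_ae (Filter.Eventually.of_forall fun x => ?_)
  simp only [trL_apply]

end Pool.Agent.H27.L1.H16.GA
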